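import Mathlib
import Pool.Agent.H64.BE.FB5
import Pool.Agent.H78.UX.FA

/-!
# The geometry of the postcritical set in the Julia set: universal bounds and no bounded geometry

The work is in, for the universal bounds: `H39/BE`, `H83/BE`, `H43/BE`, `H64/BE` (this theorem: the two level comparison of the functions of the
push forward operator, the geometry with universal constants, no gaps of the Julia set at the critical points, conformal
charts), `H18/UP`, `H43/UP`, `H66/UP`, `H83/UP` (pull backs along critical orbits in the presence of an annulus, nice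
sets, the transfer operator of the first return map, velocities of the points of the Julia set and their three point
estimate, the kernels), `H64/NC`, `H3/NC` (persistent recurrence, charts), `H64/PC`, `H57/CP`, `H44/CP`, `H57/CF`,
`H64/PF`, `H64/MJ`, `H64/MF` (locally maximal maps), `H61/TT` (the kernel identity), `H79/ES`, `H44/ND`, `H44/NR`,
`H44/RC`, `H47/RJ`, `H47/PS`, `H76/SU` (Sullivan's theorem); for the last part: `H56/UD`, `H78/UX` (limit systems,
states, the machine; the Julia set with and without interior), `H43/UB` (limit systems), `H31/IN`, `H31/UDC`, `H66/IL`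
(the vector field and the line field), `H27/BR` (charts, uniformly disconnected sets and gap discs).
-/

set_option autoImplicit false

namespace Pool.Agent.Results.MP_8f2e1c_an.PostcriticalGeometry

open Polynomial Filter Topology

/-- `f` is the rational map `P/Q` on the sphere. -/
def IsMap (f : OnePoint ℂ → OnePoint ℂ) (P Q : Polynomial ℂ) : Prop :=
  Continuous f ∧
    ∀ z : ℂ, Q.eval z ≠ 0 → f (OnePoint.some z) = OnePoint.some (P.eval z / Q.eval z)

/-- `c` is a critical point of `f`. -/
def IsCritical (f : OnePoint ℂ → OnePoint ℂ) (c : OnePoint ℂ) : Prop :=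
  ¬ ∃ U ∈ nhds c, Set.InjOn f U

/-- `c` is attracted by an attracting cycle of `f` (words of the frozen statement `S05373`). -/
def IsAttracted (f : OnePoint ℂ → OnePoint ℂ) (c : OnePoint ℂ) : Prop :=
  ∃ z : OnePoint ℂ, ∃ n : ℕ, 0 < n ∧ f^[n] z = z ∧
    (∃ U ∈ nhds z, ∀ w ∈ U,
      Filter.Tendsto (fun k : ℕ => f^[n * k] w) Filter.atTop (nhds z)) ∧
    Filter.Tendsto (fun k : ℕ => f^[n * k] c) Filter.atTop (nhds z)

/-- The number of the critical points which are attracted by attracting cycles. -/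
noncomputable def attractedNumber (f : OnePoint ℂ → OnePoint ℂ) : ℕ :=
  {c : OnePoint ℂ | IsCritical f c ∧ IsAttracted f c}.ncard

/-- The chordal distance of the Riemann sphere. -/
noncomputable def chordal : OnePoint ℂ → OnePoint ℂ → ℝ
  | OnePoint.some z, OnePoint.some w => ‖z - w‖ / (√(1 + ‖z‖ ^ 2) * √(1 + ‖w‖ ^ 2))
  | OnePoint.some z, OnePoint.infty => 1 / √(1 + ‖z‖ ^ 2)
  | OnePoint.infty, OnePoint.some w => 1 / √(1 + ‖w‖ ^ 2)
  | OnePoint.infty, OnePoint.infty => 0

/-- The Julia set of `f`: the points without a neighbourhood at whose points the iterates of `f` are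
equicontinuous for the chordal distance. -/
def julia (f : OnePoint ℂ → OnePoint ℂ) : Set (OnePoint ℂ) :=
  (interior {x | ∀ ε : ℝ, 0 < ε → ∀ᶠ y in nhds x, ∀ n : ℕ, chordal (f^[n] x) (f^[n] y) < ε})ᶜ

/-- The closure of the set of all `f^n(c)`, `n ≥ 1`, `c` a critical point in the Julia set. -/
def postcritical (f : OnePoint ℂ → OnePoint ℂ) : Set (OnePoint ℂ) :=
  closure {y | ∃ c, IsCritical f c ∧ c ∈ julia f ∧ ∃ n : ℕ, 1 ≤ n ∧ f^[n] c = y}

/-- At all small scales `r` every ring `κ r ≤ d(x, y) < r` around a point `x` of `P` contains a point of `P`. (The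
empty set has this property.) -/
def PerfectAtSmallScales (κ : ℝ) (P : Set (OnePoint ℂ)) : Prop :=
  ∃ r0 : ℝ, 0 < r0 ∧ ∀ x ∈ P, ∀ r : ℝ, 0 < r → r < r0 → ∃ y ∈ P, κ * r ≤ chordal x y ∧ chordal x y < r

/-- The planar part of every nonempty relatively open subset of `P` has Hausdorff dimension at least `s`. -/
def LocalDimension (s : ℝ) (P : Set (OnePoint ℂ)) : Prop :=
  ∀ U : Set (OnePoint ℂ), IsOpen U → (P ∩ U).Nonempty → ENNReal.ofReal s ≤ dimH {z : ℂ | (z : OnePoint ℂ) ∈ P ∩ U}

/-- `K` is uniformly disconnected (David and Semmes): there is a constant `C` such that for every point `x` of `K` and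
every `r > 0` there is a part `A` of `K` with `x ∈ A`, in the chordal disc of radius `r` at `x`, whose points have
chordal distance at least `r / C` from all points of `K` outside `A`. -/
def IsUniformlyDisconnected (K : Set (OnePoint ℂ)) : Prop :=
  ∃ C : ℝ, 0 < C ∧ ∀ x ∈ K, ∀ r : ℝ, 0 < r → ∃ A ⊆ K, x ∈ A ∧ (∀ a ∈ A, chordal x a < r) ∧
    ∀ a ∈ A, ∀ p ∈ K, p ∉ A → r ≤ C * chordal a p

/-- The geometry of the postcritical set in the Julia set at small scales: it is empty, or it is perfect at small scales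
with the ratio `κ` (so that it is not too thin at any place and scale), it has locally Hausdorff dimension at least `s`,
and it is not uniformly disconnected. -/
def HasBounds (κ s : ℝ) (f : OnePoint ℂ → OnePoint ℂ) : Prop :=
  postcritical f = ∅ ∨ (PerfectAtSmallScales κ (postcritical f) ∧ LocalDimension s (postcritical f) ∧
    ¬ IsUniformlyDisconnected (postcritical f))

/-- `f` and `g` are topologically conjugate. -/
def AreConjugate (f g : OnePoint ℂ → OnePoint ℂ) : Prop :=
  ∃ h : OnePoint ℂ ≃ₜ OnePoint ℂ, ∀ x, h (f x) = g (h x)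

/-- The polynomial of degree at most `d` with coefficients `v`. -/
noncomputable def poly {d : ℕ} (v : Fin (d + 1) → ℂ) : Polynomial ℂ := ∑ i, C (v i) * X ^ (i : ℕ)

/-- Pairs of polynomials `P`, `Q` with `deg P ≤ d`, `deg Q ≤ d - m`, given by their coefficients. -/
abbrev Pairs (d m : ℕ) : Type := (Fin (d + 1) → ℂ) × (Fin (d - m + 1) → ℂ)

/-- `f = P/Q` is the rational map of degree exactly `d` given by the pair `v = (P, Q)` of coprime
polynomials, `deg Q ≤ d - m`. For `m = 0` these are all rational maps of degree `d`, for `m ≥ 1` those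
which fix infinity with local degree at least `m`, for `m = d` the polynomials (up to the constant `Q`). -/
def IsRational {d m : ℕ} (v : Pairs d m) (f : OnePoint ℂ → OnePoint ℂ) : Prop :=
  IsCoprime (poly v.1) (poly v.2) ∧ max (poly v.1).natDegree (poly v.2).natDegree = d ∧
    IsMap f (poly v.1) (poly v.2)

theorem chord_eq (x y : OnePoint ℂ) : chordal x y = Pool.Agent.H35.EX.chord x y := by
  induction x using OnePoint.rec with
  | infty =>
    induction y using OnePoint.rec with
    | infty => rfl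
    | coe y => rfl
  | coe x =>
    induction y using OnePoint.rec with
    | infty => rfl
    | coe y => rfl

theorem julia_eq (f : OnePoint ℂ → OnePoint ℂ) : julia f = Pool.Agent.H44.RC.JS f := by
  unfold julia Pool.Agent.H44.RC.JS Pool.Agent.H56.HR.FS Pool.Agent.H56.HR.EqAt
  simp only [chord_eq]

theorem post_eq (f : OnePoint ℂ → OnePoint ℂ) : postcritical f = Pool.Agent.H18.UP.PS f := by
  unfold postcritical Pool.Agent.H18.UP.PS
  rw [julia_eq]
  rfl

theorem up_iff (κ : ℝ) (P : Set (OnePoint ℂ)) : PerfectAtSmallScales κ P ↔ Pool.Agent.H83.BE.UPd κ P := by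
  unfold PerfectAtSmallScales Pool.Agent.H83.BE.UPd
  simp only [chord_eq]

theorem att_iff {f : OnePoint ℂ → OnePoint ℂ} {c : OnePoint ℂ} :
    Pool.Agent.H32.BT.Att f c ↔ IsAttracted f c := by
  constructor
  · rintro ⟨z, n, ⟨h1, h2, h3⟩, h4⟩
    exact ⟨z, n, h1, h2, h3, h4⟩
  · rintro ⟨z, n, h1, h2, h3, h4⟩
    exact ⟨z, n, ⟨h1, h2, h3⟩, h4⟩

theorem number_eq {d : ℕ} (v : Pool.Agent.H79.Eul.E d) :
    attractedNumber (Pool.Agent.H79.Par.Rf v) = Pool.Agent.H79.ES.NA v := by
  unfold attractedNumber Pool.Agent.H79.ES.NA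
  congr 1
  ext c
  exact and_congr Iff.rfl att_iff.symm

theorem map_eq {d m : ℕ} (hd : 2 ≤ d) {v : Pairs d m} {f : OnePoint ℂ → OnePoint ℂ} (h : IsRational v f) :
    f = Pool.Agent.H44.Fatou.rat (Pool.Agent.H79.Eul.pol v.1) (Pool.Agent.H79.Eul.pol v.2) := by
  obtain ⟨h1, h2, h3⟩ := h
  have h1' : IsCoprime (Pool.Agent.H79.Eul.pol v.1) (Pool.Agent.H79.Eul.pol v.2) := h1
  have h2' : max (Pool.Agent.H79.Eul.pol v.1).natDegree (Pool.Agent.H79.Eul.pol v.2).natDegree = d := h2
  have hB0 : Pool.Agent.H79.Eul.pol v.2 ≠ 0 := Pool.Agent.H32.BT.den_ne_zero h1' (by omega)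
  exact Pool.Agent.H32.RB.ext_eq h1' hB0 h3

theorem rat_is {d m : ℕ} {v : Pairs d m} (h1 : IsCoprime (poly v.1) (poly v.2))
    (h2 : max (poly v.1).natDegree (poly v.2).natDegree = d) : IsRational v
      (Pool.Agent.H44.Fatou.rat (Pool.Agent.H79.Eul.pol v.1) (Pool.Agent.H79.Eul.pol v.2)) := by
  have h1' : IsCoprime (Pool.Agent.H79.Eul.pol v.1) (Pool.Agent.H79.Eul.pol v.2) := h1
  refine ⟨h1, h2, Pool.Agent.H44.Fatou.rat_continuous h1', fun z hz => ?_⟩
  exact Pool.Agent.H44.Fatou.rat_coe_of_ne hz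

theorem rf_ex {d m : ℕ} (v : Pairs d m) : Pool.Agent.H79.Par.Rf (Pool.Agent.H47.NM.ex d m v) =
    Pool.Agent.H44.Fatou.rat (Pool.Agent.H79.Eul.pol v.1) (Pool.Agent.H79.Eul.pol v.2) := by
  unfold Pool.Agent.H79.Par.Rf
  rw [(Pool.Agent.H47.NM.ex_pol v).1, (Pool.Agent.H47.NM.ex_pol v).2]

theorem kj_eq (f : OnePoint ℂ → OnePoint ℂ) :
    Pool.Agent.H64.JS.KJ {c | Pool.Agent.H32.BT.IsCrit f c} (Pool.Agent.H44.RC.JS f) f = postcritical f := by
  unfold postcritical
  rw [julia_eq]
  rfl

theorem ud_iff (K : Set (OnePoint ℂ)) : Pool.Agent.H27.BR.UDs K ↔ IsUniformlyDisconnected K := by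
  unfold Pool.Agent.H27.BR.UDs IsUniformlyDisconnected
  simp only [chord_eq]

theorem bounds_of {κ : ℝ} (hκ : 0 < κ) {f : OnePoint ℂ → OnePoint ℂ}
    (h : Pool.Agent.H83.BE.UPd κ (Pool.Agent.H18.UP.PS f))
    (h2 : (∀ c, Pool.Agent.H32.BT.IsCrit f c → c ∉ Pool.Agent.H44.RC.JS f) ∨
      ¬ Pool.Agent.H27.BR.UDs (Pool.Agent.H64.JS.KJ {c | Pool.Agent.H32.BT.IsCrit f c} (Pool.Agent.H44.RC.JS f) f)) :
    HasBounds κ (Pool.Agent.H83.BE.sd κ) f := by
  rcases h2 with h3 | h3
  · left
    unfold postcritical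
    rw [closure_empty_iff, Set.eq_empty_iff_forall_notMem]
    rintro y ⟨c, hc, hcJ, -⟩
    rw [julia_eq] at hcJ
    exact h3 c hc hcJ
  · right
    rw [kj_eq, ud_iff] at h3
    refine ⟨?_, ?_, h3⟩
    · rw [post_eq, up_iff]
      exact h
    · rw [post_eq]
      exact fun U hU hne => Pool.Agent.H83.BE.dims_up hκ isClosed_closure h hU hne

/-- The maps of the family for which the bounds do not hold are limits of maps with more attracted critical points. -/
theorem dich {d : ℕ} (hd : 2 ≤ d) : ∃ κ s : ℝ, 0 < κ ∧ 0 < s ∧ ∀ m : ℕ, m ≤ d → ∀ (v : Pairs d m)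
    (f : OnePoint ℂ → OnePoint ℂ), IsRational v f → HasBounds κ s f ∨
      ∀ ε : ℝ, 0 < ε → ∃ w ∈ Metric.ball v ε, ∃ g, IsRational w g ∧ attractedNumber f < attractedNumber g := by
  obtain ⟨κ, h0, h1, -, hb⟩ := Pool.Agent.H64.BE.beau (d := d) hd
  refine ⟨κ, Pool.Agent.H83.BE.sd κ, h0, Pool.Agent.H83.BE.sd_pos h0 h1, fun m hm v f hf => ?_⟩
  have h3 := hf.1
  have h4 := hf.2.1
  have hfe := (map_eq hd hf).trans (rf_ex v).symm
  subst hfe
  by_cases hup : Pool.Agent.H57.CF.UpF d m v
  · right
    intro ε hε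
    obtain ⟨w, hw, h5, h6, h7⟩ := hup ε hε
    refine ⟨w, hw, _, rat_is h5 h6, ?_⟩
    rw [← rf_ex w, number_eq, number_eq]
    exact h7
  · left
    exact bounds_of h0 (hb m hm v h3 h4 hup) (Pool.Agent.H78.UX.ud_all hd hm h3 h4 hup)

/-- Topologically conjugate maps have the same number of attracted critical points. -/
theorem number_conj {f g : OnePoint ℂ → OnePoint ℂ} (h : AreConjugate f g) : attractedNumber f = attractedNumber g := by
  obtain ⟨h, hh⟩ := h
  unfold attractedNumber
  have h1 : {c : OnePoint ℂ | IsCritical g c ∧ IsAttracted g c} = h '' {c : OnePoint ℂ | IsCritical f c ∧ IsAttracted f c} := by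
    ext y
    obtain ⟨x, rfl⟩ := h.surjective y
    have h2 : IsCritical g (h x) ↔ IsCritical f x := Pool.Agent.H32.BT.isCrit_conj h (fun z => (hh z).symm) x
    have h3 : IsAttracted g (h x) ↔ IsAttracted f x := by
      rw [← att_iff, ← att_iff]
      exact Pool.Agent.H32.BT.att_conj h (fun z => (hh z).symm) x
    rw [h.injective.mem_set_image]
    exact and_congr h2 h3
  rw [h1, Set.ncard_image_of_injective _ h.injective]

/-- THE GEOMETRY OF THE POSTCRITICAL SET AT SMALL SCALES. For every `d ≥ 2` there are `κ, s > 0` with the following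
properties. Let `m ≤ d` and consider the rational maps `f = P/Q` of degree `d` with `deg Q ≤ d - m` (`m = 0`: all
rational maps of degree `d`; `m = d`: all polynomials of degree `d`). Let `P_J(f)` be the closure of the forward orbits
of the critical values of the critical points of `f` in the Julia set. (1) If all maps of the family near `f` are
topologically conjugate to `f` then `P_J(f)` is empty, or at all small scales `r` the ring `κ r ≤ d(x, y) < r` around any
point `x` of `P_J(f)` contains a point of `P_J(f)`, every nonempty relatively open subset of `P_J(f)` has Hausdorff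
dimension at least `s`, and `P_J(f)` is not uniformly disconnected. (2) For EVERY `f`: this holds, or there are maps of
the family arbitrarily near `f` with more critical points which are attracted by attracting cycles. (3) The maps without
this property are nowhere dense. -/
theorem result (d : ℕ) (hd : 2 ≤ d) : ∃ κ s : ℝ, 0 < κ ∧ 0 < s ∧ ∀ m : ℕ, m ≤ d →
    (∀ (v : Pairs d m) (f : OnePoint ℂ → OnePoint ℂ), IsRational v f →
      (∃ ε : ℝ, 0 < ε ∧ ∀ w ∈ Metric.ball v ε, ∀ g, IsRational w g → AreConjugate f g) → HasBounds κ s f) ∧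
    (∀ (v : Pairs d m) (f : OnePoint ℂ → OnePoint ℂ), IsRational v f →
      HasBounds κ s f ∨
        ∀ ε : ℝ, 0 < ε → ∃ w ∈ Metric.ball v ε, ∃ g, IsRational w g ∧ attractedNumber f < attractedNumber g) ∧
    IsNowhereDense {v : Pairs d m | ∃ f : OnePoint ℂ → OnePoint ℂ, IsRational v f ∧ ¬ HasBounds κ s f} := by
  obtain ⟨κ, s, hκ, hs, h⟩ := dich hd
  refine ⟨κ, s, hκ, hs, fun m hm => ⟨fun v f hf hst => ?_, h m hm, ?_⟩⟩
  · obtain ⟨ε, hε, hst⟩ := hst
    rcases h m hm v f hf with h1 | h1
    · exact h1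
    · obtain ⟨w, hw, g, hg, hlt⟩ := h1 ε hε
      exact absurd (number_conj (hst w hw g hg)) (ne_of_lt hlt)
  · refine (Pool.Agent.H57.CF.upF_nwd hd).mono ?_
    rintro v ⟨f, hf, hn⟩
    refine ⟨hf.1, hf.2.1, fun ε hε => ?_⟩
    have hfe := (map_eq hd hf).trans (rf_ex v).symm
    obtain ⟨w, hw, g, hg, hlt⟩ := (h m hm v f hf).resolve_left hn ε hε
    have hge := (map_eq hd hg).trans (rf_ex w).symm
    subst hfe hge
    refine ⟨w, hw, hg.1, hg.2.1, ?_⟩
    rw [number_eq, number_eq] at hlt
    exact hlt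

end Pool.Agent.Results.MP_8f2e1c_an.PostcriticalGeometry
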